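import Pool.Agent.Helper15.RA.GoalsR

/-!
# Project RA (MP_cc6379_al), packet XB: the bar involution exists.
-/

set_option autoImplicit false

open LaurentPolynomial

noncomputable section

namespace Pool.Agent.Helper13.RA

open Pool.Agent.Helper15.RA

variable {I W H : Type} [Group W] [Ring H] [Algebra ℤ[T;T⁻¹] H] {M : CoxeterMatrix I}
  {cs : CoxeterSystem M W} {L : W → ℕ}

theorem addExt (D : Hecke0 cs L H) (f g : H →+ H) (h : ∀ (q : ℤ[T;T⁻¹]) (w : W), f (q • D.t w) = g (q • D.t w))
    (Z : H) : f Z = g Z := by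
  rw [← D.t.linearCombination_repr Z, Finsupp.linearCombination_apply, Finsupp.sum, map_sum, map_sum]
  exact Finset.sum_congr rfl fun w _ => h _ w

/-- the inverse of `T_(w⁻¹)` -/
def b (D : Hecke0 cs L H) (w : W) : H := Ring.inverse (D.t w⁻¹)

/-- the bar map as an additive map -/
def bar0 (D : Hecke0 cs L H) : H →+ H :=
  (Finsupp.liftAddHom fun w => ((smulAddHom ℤ[T;T⁻¹] H).flip (b D w)).comp
    ((invert : ℤ[T;T⁻¹] ≃ₐ[ℤ] ℤ[T;T⁻¹]) : ℤ[T;T⁻¹] →+ ℤ[T;T⁻¹])).comp
    (D.t.repr.toLinearMap.toAddMonoidHom)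

theorem bar0_smul_t (D : Hecke0 cs L H) (p : ℤ[T;T⁻¹]) (w : W) :
    bar0 D (p • D.t w) = invert p • b D w := by
  have h1 : D.t.repr (p • D.t w) = Finsupp.single w p := by
    rw [map_smul, Module.Basis.repr_self, Finsupp.smul_single, smul_eq_mul, mul_one]
  have h2 : bar0 D (p • D.t w) = Finsupp.liftAddHom (fun w => ((smulAddHom ℤ[T;T⁻¹] H).flip (b D w)).comp
    ((invert : ℤ[T;T⁻¹] ≃ₐ[ℤ] ℤ[T;T⁻¹]) : ℤ[T;T⁻¹] →+ ℤ[T;T⁻¹])) (D.t.repr (p • D.t w)) := rfl
  rw [h2, h1, Finsupp.liftAddHom_apply_single]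
  rfl

theorem semi (D : Hecke0 cs L H) (p : ℤ[T;T⁻¹]) (Z : H) : bar0 D (p • Z) = invert p • bar0 D Z := by
  have h := addExt D ((bar0 D).comp (DistribSMul.toAddMonoidHom H p))
    ((DistribSMul.toAddMonoidHom H (invert p)).comp (bar0 D)) (fun q w => ?_) Z
  · exact h
  · change bar0 D (p • (q • D.t w)) = invert p • bar0 D (q • D.t w)
    rw [smul_smul, bar0_smul_t, bar0_smul_t, map_mul, smul_smul]

theorem h_xb (h1 : H_1) : X_B := by
  intro I W H _ _ _ M cs L D
  classical
  obtain ⟨t1, up, down, rup, -, -, -, -⟩ := h1 I W H M cs L D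
  have ss : ∀ i, D.t (cs.simple i) * D.t (cs.simple i) = xi (L (cs.simple i)) • D.t (cs.simple i) + 1 := by
    intro i
    have h := down i (cs.simple i) (by rw [cs.simple_mul_simple_self, cs.length_one, cs.length_simple])
    rwa [cs.simple_mul_simple_self, t1] at h
  have inv1 : ∀ i, D.t (cs.simple i) * (D.t (cs.simple i) - xi (L (cs.simple i)) • 1) = 1 := by
    intro i
    rw [mul_sub, ss, mul_smul_comm, mul_one]
    abel
  have inv2 : ∀ i, (D.t (cs.simple i) - xi (L (cs.simple i)) • 1) * D.t (cs.simple i) = 1 := by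
    intro i
    rw [sub_mul, ss, smul_mul_assoc, one_mul]
    abel
  have us : ∀ i, IsUnit (D.t (cs.simple i)) := fun i => ⟨⟨_, _, inv1 i, inv2 i⟩, rfl⟩
  -- descents
  have dec : ∀ n w, cs.length w = n + 1 → ∃ i, cs.length (cs.simple i * w) = n ∧
      cs.length (cs.simple i * (cs.simple i * w)) = cs.length (cs.simple i * w) + 1 := by
    intro n w hw
    have hw1 : w ≠ 1 := by
      rintro rfl
      rw [cs.length_one] at hw
      omega
    obtain ⟨i, hi⟩ := cs.exists_leftDescent_of_ne_one hw1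
    rw [cs.isLeftDescent_iff] at hi
    refine ⟨i, by omega, ?_⟩
    rw [cs.simple_mul_simple_cancel_left]
    omega
  have ut0 : ∀ n w, cs.length w = n → IsUnit (D.t w) := by
    intro n
    induction n with
    | zero =>
      intro w hw
      rw [cs.length_eq_zero_iff] at hw
      rw [hw, t1]
      exact isUnit_one
    | succ n ih =>
      intro w hw
      obtain ⟨i, hi, hi2⟩ := dec n w hw
      have h5 := up i _ hi2
      rw [cs.simple_mul_simple_cancel_left] at h5
      rw [← h5]
      exact (us i).mul (ih _ hi)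
  have ut : ∀ w, IsUnit (D.t w) := fun w => ut0 _ w rfl
  have bl : ∀ w, b D w * D.t w⁻¹ = 1 := fun w => Ring.inverse_mul_cancel _ (ut _)
  have br : ∀ w, D.t w⁻¹ * b D w = 1 := fun w => Ring.mul_inverse_cancel _ (ut _)
  have buniq : ∀ w Y, D.t w⁻¹ * Y = 1 → b D w = Y := by
    intro w Y h
    calc b D w = b D w * (D.t w⁻¹ * Y) := by rw [h, mul_one]
      _ = Y := by rw [← mul_assoc, bl, one_mul]
  have b1 : b D 1 = 1 := buniq 1 1 (by rw [inv_one, t1, mul_one])
  have bs : ∀ i, b D (cs.simple i) = D.t (cs.simple i) - xi (L (cs.simple i)) • 1 := fun i =>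
    buniq _ _ (by rw [cs.inv_simple, inv1])
  have bup : ∀ i w, cs.length (cs.simple i * w) = cs.length w + 1 →
      b D (cs.simple i * w) = b D (cs.simple i) * b D w := by
    intro i w h
    apply buniq
    have h2 := rup i w⁻¹ (by
      rw [← cs.length_inv, mul_inv_rev, inv_inv, cs.inv_simple, h, cs.length_inv])
    rw [mul_inv_rev, cs.inv_simple, ← h2, bs, mul_assoc, ← mul_assoc (D.t (cs.simple i)), inv1, one_mul, br]
  have bsq : ∀ i, b D (cs.simple i) * b D (cs.simple i) = 1 - xi (L (cs.simple i)) • b D (cs.simple i) := by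
    intro i
    rw [bs i]
    conv_lhs => rw [mul_sub, inv2, mul_smul_comm, mul_one]
  have bdown : ∀ i w, cs.length (cs.simple i * w) + 1 = cs.length w →
      b D (cs.simple i) * b D w = b D (cs.simple i * w) - xi (L (cs.simple i)) • b D w := by
    intro i w h
    have h2 := bup i (cs.simple i * w) (by rw [cs.simple_mul_simple_cancel_left]; omega)
    rw [cs.simple_mul_simple_cancel_left] at h2
    conv_lhs => rw [h2]
    rw [← mul_assoc, bsq, sub_mul, one_mul, smul_mul_assoc, ← h2]
  have ixi : ∀ n : ℕ, invert (xi n) = - xi n := by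
    intro n
    rw [xi, map_sub, invert_T, invert_T, neg_neg]
    ring
  -- multiplicativity
  have muls : ∀ i Z, bar0 D (D.t (cs.simple i) * Z) = b D (cs.simple i) * bar0 D Z := by
    intro i Z
    have h := addExt D ((bar0 D).comp (AddMonoidHom.mulLeft (D.t (cs.simple i))))
      ((AddMonoidHom.mulLeft (b D (cs.simple i))).comp (bar0 D)) (fun q w => ?_) Z
    · exact h
    · change bar0 D (D.t (cs.simple i) * (q • D.t w)) = b D (cs.simple i) * bar0 D (q • D.t w)
      rcases cs.length_simple_mul w i with h | h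
      · rw [mul_smul_comm, up i w h, bar0_smul_t, bar0_smul_t, bup i w h, mul_smul_comm]
      · rw [mul_smul_comm, down i w h, smul_add, map_add, smul_smul, bar0_smul_t, bar0_smul_t,
          bar0_smul_t, mul_smul_comm, bdown i w h, smul_sub, map_mul, ixi, smul_smul, mul_neg, neg_smul]
        abel
  have mult : ∀ n x, cs.length x = n → ∀ Z, bar0 D (D.t x * Z) = b D x * bar0 D Z := by
    intro n
    induction n with
    | zero =>
      intro w hw Z
      rw [cs.length_eq_zero_iff] at hw
      rw [hw, t1, b1, one_mul, one_mul]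
    | succ n ih =>
      intro w hw Z
      obtain ⟨i, hi, hi2⟩ := dec n w hw
      have h5 := up i _ hi2
      have h6 := bup i _ hi2
      rw [cs.simple_mul_simple_cancel_left] at h5 h6
      rw [← h5, h6, mul_assoc, muls, ih _ hi, mul_assoc]
  have mulb : ∀ Y Z, bar0 D (Y * Z) = bar0 D Y * bar0 D Z := by
    intro Y Z
    have h := addExt D ((bar0 D).comp (AddMonoidHom.mulRight Z))
      ((AddMonoidHom.mulRight (bar0 D Z)).comp (bar0 D)) (fun q w => ?_) Y
    · exact h
    · change bar0 D ((q • D.t w) * Z) = bar0 D (q • D.t w) * bar0 D Z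
      rw [smul_mul_assoc, semi, mult _ w rfl, bar0_smul_t, smul_mul_assoc]
  have oneb : bar0 D 1 = 1 := by
    have h := bar0_smul_t D 1 1
    have h2 : invert (1 : ℤ[T;T⁻¹]) = 1 := map_one _
    rwa [one_smul, t1, b1, h2, one_smul] at h
  -- the square
  have barb : ∀ n w, cs.length w = n → bar0 D (b D w) = D.t w := by
    intro n
    induction n with
    | zero =>
      intro w hw
      rw [cs.length_eq_zero_iff] at hw
      rw [hw, t1, b1, oneb]
    | succ n ih =>
      intro w hw
      obtain ⟨i, hi, hi2⟩ := dec n w hw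
      have h5 := up i _ hi2
      have h6 := bup i _ hi2
      rw [cs.simple_mul_simple_cancel_left] at h5 h6
      have h7 : bar0 D (D.t (cs.simple i)) = b D (cs.simple i) := by
        have h := bar0_smul_t D 1 (cs.simple i)
        rwa [one_smul, map_one, one_smul] at h
      have h8 : bar0 D (b D (cs.simple i)) = D.t (cs.simple i) := by
        rw [bs i, map_sub, h7, semi, oneb, ixi, bs i, neg_smul]
        abel
      rw [← h5, h6, mulb, h8, ih _ hi]
  refine ⟨{ D with
    bar := { toFun := bar0 D, map_one' := oneb, map_mul' := mulb, map_zero' := map_zero _, map_add' := map_add _ }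
    bar_bar := ?_
    bar_t := ?_ }⟩
  · intro x
    have h := addExt D ((bar0 D).comp (bar0 D)) (AddMonoidHom.id H) (fun q w => ?_) x
    · exact h
    · change bar0 D (bar0 D (q • D.t w)) = q • D.t w
      rw [bar0_smul_t, semi, barb _ w rfl]
      congr 1
      exact involutive_invert q
  · intro n w
    change bar0 D ((T n : ℤ[T;T⁻¹]) • D.t w) * D.t w⁻¹ = _ ∧ D.t w⁻¹ * bar0 D ((T n : ℤ[T;T⁻¹]) • D.t w) = _
    rw [bar0_smul_t, smul_mul_assoc, mul_smul_comm, bl, br, invert_T]
    exact ⟨rfl, rfl⟩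

end Pool.Agent.Helper13.RA
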